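import Pool.Agent.W412.TI.Spec

set_option autoImplicit false

/-!
Spaces of transitive interval maps: the locally finite choice of the scale.
-/

namespace Pool.Agent.W914.TI

open Set Topology Pool.Agent.W412.TI

theorem lf_tau (h2 : S_AVG) (ε : C(unitInterval, unitInterval) → ℝ) (hε : Continuous ε)
    (hpos : ∀ f, 0 < ε f) :
    ∃ τ : C(unitInterval, unitInterval) → ℝ, Continuous τ ∧
    (∀ f, 0 < τ f ∧ τ f ≤ 1) ∧ (∀ f, 2 * amp f (τ f) < min (ε f) 1) := by
  obtain ⟨-, -, -, h4, -, h6⟩ := h2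
  set A : Set (C(unitInterval, unitInterval) × ℝ) :=
    {q | min (ε q.1) 1 ≤ 2 * amp q.1 q.2} with hA
  have hAc : IsClosed A := by
    apply isClosed_le
    · exact (hε.comp continuous_fst).min continuous_const
    · unfold amp
      exact continuous_const.mul ((continuous_const.mul continuous_snd.abs).add h4)
  have herr : ∀ (f : C(unitInterval, unitInterval)) (t : ℝ), 0 ≤ err f t := fun f t => dist_nonneg
  have hAn : A.Nonempty := by
    refine ⟨(⟨fun x => x, continuous_id⟩, 1), ?_⟩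
    show min (ε ⟨fun x => x, continuous_id⟩) 1 ≤ 2 * amp ⟨fun x => x, continuous_id⟩ 1
    refine (min_le_right _ _).trans ?_
    unfold amp
    have := herr ⟨fun x => x, continuous_id⟩ 1
    rw [abs_one]
    linarith
  have h0 : ∀ f, ((f, (0:ℝ)) : C(unitInterval, unitInterval) × ℝ) ∉ A := by
    intro f hf
    have : min (ε f) 1 ≤ 2 * amp f 0 := hf
    unfold amp at this
    rw [h6, abs_zero] at this
    have h := lt_min (hpos f) one_pos
    linarith
  have hd : ∀ f, 0 < Metric.infDist ((f, (0:ℝ)) : C(unitInterval, unitInterval) × ℝ) A :=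
    fun f => (hAc.notMem_iff_infDist_pos hAn).mp (h0 f)
  refine ⟨fun f => min 1 (Metric.infDist ((f, (0:ℝ)) : C(unitInterval, unitInterval) × ℝ) A) / 2,
    ?_, ?_, ?_⟩
  · have : Continuous fun f : C(unitInterval, unitInterval) =>
        Metric.infDist ((f, (0:ℝ)) : C(unitInterval, unitInterval) × ℝ) A :=
      (Metric.continuous_infDist_pt A).comp (by fun_prop)
    exact (continuous_const.min this).div_const 2
  · intro f
    constructor
    · exact half_pos (lt_min one_pos (hd f))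
    · have := min_le_left 1 (Metric.infDist ((f, (0:ℝ)) : C(unitInterval, unitInterval) × ℝ) A)
      show min 1 (Metric.infDist ((f, (0:ℝ)) : C(unitInterval, unitInterval) × ℝ) A) / 2 ≤ 1
      linarith
  · intro f
    by_contra hcon
    push Not at hcon
    have hmem : ((f, min 1 (Metric.infDist ((f, (0:ℝ)) : C(unitInterval, unitInterval) × ℝ) A) / 2)
        : C(unitInterval, unitInterval) × ℝ) ∈ A := hcon
    have h3 := Metric.infDist_le_dist_of_mem (x := ((f, (0:ℝ)) : C(unitInterval, unitInterval) × ℝ))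
      hmem
    rw [Prod.dist_eq, dist_self, Real.dist_eq] at h3
    have h5 := min_le_right 1 (Metric.infDist ((f, (0:ℝ)) : C(unitInterval, unitInterval) × ℝ) A)
    have h7 : 0 < min 1 (Metric.infDist ((f, (0:ℝ)) : C(unitInterval, unitInterval) × ℝ) A) :=
      lt_min one_pos (hd f)
    have h8 := hd f
    simp only [zero_sub, abs_neg] at h3
    rw [abs_of_pos (half_pos h7), max_eq_right (half_pos h7).le] at h3
    linarith

theorem lfFacts (h1 : S_FOLD) (h2 : S_AVG) : S_LF := by
  intro g hg ε hε hpos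
  obtain ⟨τ, hτc, hτ, hτa⟩ := lf_tau h2 ε hε hpos
  refine ⟨τ, hτc, hτ, fun f => (hτa f).trans_le (min_le_left _ _), ?_⟩
  obtain ⟨g1, -, -, g4⟩ := hg
  obtain ⟨a1, a2, -, -, -, -⟩ := h2
  intro g0
  have he := (hτ g0).1
  have hcont : ∀ᶠ f in 𝓝 g0, τ g0 / 2 < τ f :=
    hτc.continuousAt.eventually_const_lt (half_lt_self he)
  obtain ⟨r, hr, hrb⟩ := Metric.eventually_nhds_iff.mp hcont
  obtain ⟨b, hb, hb1, hb2⟩ : ∃ b : ℝ, 0 < b ∧ b ≤ r / 4 ∧ b ≤ τ g0 / 2 :=
    ⟨min (r / 4) (τ g0 / 2), lt_min (by linarith) (by linarith), min_le_left _ _, min_le_right _ _⟩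
  have huc := CompactSpace.uniformContinuous_of_continuous g0.continuous
  obtain ⟨δ, hδ, hδ2⟩ := Metric.uniformContinuous_iff.mp huc (b / 8) (by linarith)
  obtain ⟨N, hN⟩ := exists_nat_gt (1 / δ)
  refine ⟨Metric.ball g0 (b / 8), Metric.ball_mem_nhds _ (by linarith), ?_⟩
  refine (Set.finite_lt_nat N).subset ?_
  rintro n ⟨ψ, ⟨f, rfl⟩, hball⟩
  by_contra hn
  have hn : N ≤ n := not_lt.mp hn
  set t := τ f with ht
  have ht0 : 0 < t := (hτ f).1
  have ht1 : t ≤ 1 := (hτ f).2
  set a := amp f t with ha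
  have ha1 : 2 * a < 1 := (hτa f).trans_le (min_le_right _ _)
  have hat : 5 * t ≤ a := by
    have : 0 ≤ err f t := dist_nonneg
    rw [ha]; unfold amp
    rw [abs_of_pos ht0]; linarith
  have hc16 : (16:ℝ) ≤ 16 + n := by have : (0:ℝ) ≤ n := n.cast_nonneg; linarith
  have hc0 : (0:ℝ) < 16 + n := by linarith
  have hx1n : 0 ≤ t ^ 2 / (16 + n) := by positivity
  have ht2 : t ^ 2 ≤ 1 := pow_le_one₀ ht0.le ht1
  have hx1l : t ^ 2 / (16 + n) ≤ 1 := by
    rw [div_le_one hc0]; linarith
  set x1 : unitInterval := ⟨t ^ 2 / (16 + n), hx1n, hx1l⟩ with hx1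
  have hs0 : saw (16 + n) t 0 = 0 := by
    unfold saw
    rw [mul_zero, zero_div]
    have := h1.2.2.1 0 0 (by simp) (by simp)
    simpa using this
  have hs1 : saw (16 + n) t (x1 : ℝ) = 1 := by
    unfold saw
    have : (16 + (n:ℝ)) * (x1 : ℝ) / t ^ 2 = 1 := by
      show (16 + (n:ℝ)) * (t ^ 2 / (16 + n)) / t ^ 2 = 1
      field_simp
    rw [this]
    have := h1.2.2.1 0 1 (by simp) (by simp)
    simpa using this
  have v0 : ((g (16 + n) (f, t) 0 : unitInterval) : ℝ) = lo f t 0 := by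
    rw [g1]
    show gR (16 + n) f t 0 = _
    unfold gR
    rw [hs0]; ring
  have v1 : ((g (16 + n) (f, t) x1 : unitInterval) : ℝ) = hi f t x1 := by
    rw [g1]
    show gR (16 + n) f t (x1 : ℝ) = _
    unfold gR
    rw [hs1]; ring
  have hL : |avg f t x1 - avg f t 0| ≤ t / 16 := by
    refine (a2 f t x1 0 ht0).trans ?_
    rw [sub_zero, abs_of_nonneg x1.2.1]
    show t ^ 2 / (16 + n) / t ≤ t / 16
    rw [div_div, div_le_div_iff₀ (by positivity) (by norm_num)]
    nlinarith [mul_pos ht0 ht0]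
  have hdiff : a ≤ hi f t x1 - lo f t 0 := by
    have b1 := a1 f t x1
    have b2 := a1 f t 0
    have b3 := abs_le.mp hL
    unfold hi lo
    rw [← ha]
    rcases min_choice (1:ℝ) (avg f t x1 + a) with e | e <;>
    rcases max_choice (0:ℝ) (avg f t 0 - a) with e' | e' <;> rw [e, e'] <;> linarith
  have hd1 : dist (g (16 + n) (f, t) x1) (g0 x1) < b / 8 :=
    (ContinuousMap.dist_apply_le_dist x1).trans_lt hball
  have hd0 : dist (g (16 + n) (f, t) 0) (g0 0) < b / 8 :=
    (ContinuousMap.dist_apply_le_dist 0).trans_lt hball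
  have hdx : dist x1 0 < δ := by
    rw [Subtype.dist_eq, Real.dist_eq]
    show |t ^ 2 / (16 + n) - 0| < δ
    rw [sub_zero, abs_of_nonneg hx1n]
    have hNn : (N:ℝ) ≤ n := by exact_mod_cast hn
    rw [div_lt_iff₀ hc0]
    rw [div_lt_iff₀ hδ] at hN
    nlinarith
  have hd2 := hδ2 hdx
  rw [Subtype.dist_eq, Real.dist_eq] at hd1 hd0 hd2
  have c1 := abs_lt.mp hd1
  have c0 := abs_lt.mp hd0
  have c2 := abs_lt.mp hd2
  have hab : a < b / 2 := by
    rw [v1] at c1
    rw [v0] at c0
    linarith [c1.1, c1.2, c0.1, c0.2, c2.1, c2.2]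
  have hfg : dist f g0 < r := by
    calc dist f g0 ≤ dist f (g (16 + n) (f, t)) + dist (g (16 + n) (f, t)) g0 :=
          dist_triangle _ _ _
      _ < 2 * a + b / 8 := by
          have := g4 (16 + n) f t
          rw [dist_comm] at this
          have h' : dist (g (16 + n) (f, t)) g0 < b / 8 := hball
          linarith
      _ < r := by linarith
  have := hrb hfg
  linarith

end Pool.Agent.W914.TI
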